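import Pool.Agent.Lib.MP_95ac01_nt.Iface

/-!
# MP_95ac01_nt: module BAD1
-/

set_option autoImplicit false

namespace Cub.H10

open Finset

theorem dt_sub (u v x : Fin 4 → ℤ) : dt (u - v) x = dt u x - dt v x := by
  simp [dt, sub_mul, Finset.sum_sub_distrib]

theorem bad1 : Bad1Statement := by
  intro A B x hA hB hx
  set N := ((cube A).filter fun v => dt v x = 0).card with hN
  set s : Finset (Fin 4 → ℤ) := Fintype.piFinset fun _ => Icc (0 : ℤ) A with hs
  set t : Finset ℤ := Icc (∑ i, min 0 ((A : ℤ) * x i)) (∑ i, max 0 ((A : ℤ) * x i)) with ht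
  have hcs : s.card = (A + 1) ^ 4 := by
    rw [hs, Fintype.card_piFinset]
    simp only [Int.card_Icc, Finset.prod_const, Finset.card_univ, Fintype.card_fin]
    congr 1
  have hct : t.card ≤ 4 * A * B + 1 := by
    rw [ht, Int.card_Icc]
    have h1 : (∑ i, max 0 ((A : ℤ) * x i)) - ∑ i, min 0 ((A : ℤ) * x i) ≤ 4 * A * B := by
      rw [← Finset.sum_sub_distrib]
      have h2 : ∀ i : Fin 4, max 0 ((A : ℤ) * x i) - min 0 ((A : ℤ) * x i) ≤ A * B := by
        intro i
        rw [max_sub_min_eq_abs, sub_zero, abs_mul, abs_of_nonneg (Int.natCast_nonneg A)]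
        exact mul_le_mul_of_nonneg_left (hx i) (Int.natCast_nonneg A)
      calc ∑ i : Fin 4, (max 0 ((A : ℤ) * x i) - min 0 ((A : ℤ) * x i))
          ≤ ∑ _i : Fin 4, (A : ℤ) * B := Finset.sum_le_sum fun i _ => h2 i
        _ = 4 * A * B := by simp; ring
    rw [Int.toNat_le]
    push_cast
    linarith
  have hmaps : ∀ v ∈ s, dt v x ∈ t := by
    intro v hv
    rw [hs, Fintype.mem_piFinset] at hv
    rw [ht, Finset.mem_Icc]
    unfold dt
    constructor
    · refine Finset.sum_le_sum fun i _ => ?_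
      have h3 := Finset.mem_Icc.1 (hv i)
      rcases le_total 0 (x i) with h | h
      · exact (min_le_left _ _).trans (mul_nonneg h3.1 h)
      · exact (min_le_right _ _).trans (mul_le_mul_of_nonpos_right h3.2 h)
    · refine Finset.sum_le_sum fun i _ => ?_
      have h3 := Finset.mem_Icc.1 (hv i)
      rcases le_total 0 (x i) with h | h
      · exact le_trans (mul_le_mul_of_nonneg_right h3.2 h) (le_max_right _ _)
      · exact le_trans (mul_nonpos_of_nonneg_of_nonpos h3.1 h) (le_max_left _ _)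
  have hfib : ∀ b ∈ t, (s.filter fun v => dt v x = b).card ≤ N := by
    intro b _
    rcases (s.filter fun v => dt v x = b).eq_empty_or_nonempty with h | ⟨v0, hv0⟩
    · rw [h]; simp
    · rw [hN]
      refine Finset.card_le_card_of_injOn (fun v => v - v0) ?_ ?_
      · intro v hv
        have hv' := Finset.mem_filter.1 (Finset.mem_coe.1 hv)
        have hv0' := Finset.mem_filter.1 hv0
        refine Finset.mem_coe.2 (Finset.mem_filter.2 ⟨mem_cube.2 fun i => ?_, ?_⟩)
        · have h1 := Finset.mem_Icc.1 (Fintype.mem_piFinset.1 hv'.1 i)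
          have h2 := Finset.mem_Icc.1 (Fintype.mem_piFinset.1 hv0'.1 i)
          show |v i - v0 i| ≤ (A : ℤ)
          rw [abs_le]
          constructor <;> linarith [h1.1, h1.2, h2.1, h2.2]
        · show dt (v - v0) x = 0
          rw [dt_sub, hv'.2, hv0'.2, sub_self]
      · intro v _ v' _ h
        exact sub_left_injective h
  have hmain := Finset.card_le_mul_card_image_of_maps_to hmaps N hfib
  rw [hcs] at hmain
  have h5 : (A + 1) ^ 4 ≤ N * (4 * A * B + 1) := hmain.trans (Nat.mul_le_mul_left _ hct)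
  have h6 : A ^ 3 * (4 * A * B + 1) ≤ 5 * B * (A + 1) ^ 4 := by
    have h7 : A ^ 3 ≤ A ^ 4 * B := by
      calc A ^ 3 = A ^ 3 * 1 := (mul_one _).symm
        _ ≤ A ^ 3 * (A * B) := Nat.mul_le_mul_left _ (Nat.mul_pos hA hB)
        _ = A ^ 4 * B := by ring
    have h8 : A ^ 4 ≤ (A + 1) ^ 4 := Nat.pow_le_pow_left (Nat.le_succ A) 4
    calc A ^ 3 * (4 * A * B + 1) = 4 * (A ^ 4 * B) + A ^ 3 := by ring
      _ ≤ 4 * (A ^ 4 * B) + A ^ 4 * B := by omega
      _ = 5 * B * A ^ 4 := by ring
      _ ≤ 5 * B * (A + 1) ^ 4 := Nat.mul_le_mul_left _ h8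
  have h9 : A ^ 3 * (4 * A * B + 1) ≤ 5 * B * N * (4 * A * B + 1) := by
    calc A ^ 3 * (4 * A * B + 1) ≤ 5 * B * (A + 1) ^ 4 := h6
      _ ≤ 5 * B * (N * (4 * A * B + 1)) := Nat.mul_le_mul_left _ h5
      _ = 5 * B * N * (4 * A * B + 1) := by ring
  exact Nat.le_of_mul_le_mul_right h9 (Nat.succ_pos _)

end Cub.H10
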