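import Pool.Agent.Lib.MP_95ac01_nt.Iface

/-!
# MP_95ac01_nt: module BAD2
-/

set_option autoImplicit false

namespace Cub.H10

open Finset

theorem dt_sub' (u v x : Fin 4 → ℤ) : dt (u - v) x = dt u x - dt v x := by
  simp [dt, sub_mul, Finset.sum_sub_distrib]

theorem dt_smul' (k : ℤ) (u x : Fin 4 → ℤ) : dt (fun i => k * u i) x = k * dt u x := by
  unfold dt
  rw [Finset.mul_sum]
  exact Finset.sum_congr rfl fun i _ => by ring

theorem mn_sub' (u v w : Fin 4 → ℤ) (i j : Fin 4) : mn u (v - w) i j = mn u v i j - mn u w i j := by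
  simp [mn]; ring

/-- two elements of a finite set of integers in an interval are close -/
theorem close_pair (F : Finset ℤ) (lo : ℤ) (D : ℕ) (hF : ∀ a ∈ F, lo ≤ a ∧ a ≤ lo + D)
    (h2 : 2 ≤ F.card) : ∃ a ∈ F, ∃ b ∈ F, a ≠ b ∧ |a - b| * ((F.card : ℤ) - 1) ≤ D := by
  set N : ℕ := F.card - 1 with hN
  have hN1 : 1 ≤ N := by omega
  have hmaps : ∀ a ∈ F, (a - lo) * (N : ℤ) / ((D : ℤ) + 1) ∈ Ico (0 : ℤ) N := by
    intro a ha
    obtain ⟨h3, h4⟩ := hF a ha
    have hD : (0 : ℤ) < (D : ℤ) + 1 := by positivity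
    rw [Finset.mem_Ico]
    constructor
    · exact Int.ediv_nonneg (mul_nonneg (by linarith) (by positivity)) hD.le
    · rw [Int.ediv_lt_iff_lt_mul hD]
      have h5 : a - lo < (D : ℤ) + 1 := by linarith
      have h6 : (0 : ℤ) < N := by exact_mod_cast hN1
      nlinarith
  have hc : (Ico (0 : ℤ) N).card < F.card := by
    rw [Int.card_Ico]
    simp only [sub_zero, Int.toNat_natCast]
    omega
  obtain ⟨a, ha, b, hb, hab, he⟩ := Finset.exists_ne_map_eq_of_card_lt_of_maps_to hc hmaps
  refine ⟨a, ha, b, hb, hab, ?_⟩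
  have hNc : ((F.card : ℤ) - 1) = (N : ℤ) := by
    rw [hN]; push_cast [Nat.cast_sub (by omega : 1 ≤ F.card)]; ring
  rw [hNc]
  have hD : (0 : ℤ) < (D : ℤ) + 1 := by positivity
  have h7 := Int.emod_add_mul_ediv ((a - lo) * (N : ℤ)) ((D : ℤ) + 1)
  have h8 := Int.emod_add_mul_ediv ((b - lo) * (N : ℤ)) ((D : ℤ) + 1)
  have h9 := Int.emod_nonneg ((a - lo) * (N : ℤ)) hD.ne'
  have h10 := Int.emod_nonneg ((b - lo) * (N : ℤ)) hD.ne'
  have h11 := Int.emod_lt_of_pos ((a - lo) * (N : ℤ)) hD
  have h12 := Int.emod_lt_of_pos ((b - lo) * (N : ℤ)) hD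
  rw [he] at h7
  have h13 : (a - b) * (N : ℤ) = (a - lo) * N % (D + 1) - (b - lo) * N % (D + 1) := by linarith
  have h14 : |(a - b) * (N : ℤ)| ≤ D := by
    rw [h13, abs_le]; constructor <;> linarith
  rwa [abs_mul, abs_of_nonneg (by positivity : (0 : ℤ) ≤ (N : ℤ))] at h14

/-- vectors parallel to a shortest vector of a lattice are multiples of it -/
theorem mult_of_parallel (x u w : Fin 4 → ℤ) (hu : u ≠ 0) (hux : dt u x = 0)
    (hmin : ∀ v : Fin 4 → ℤ, v ≠ 0 → dt v x = 0 → sz u ≤ sz v) (hw : dt w x = 0)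
    (hp : ∀ i j, mn u w i j = 0) : ∃ k : ℤ, w = fun i => k * u i := by
  obtain ⟨i, hi⟩ := exists_sz u
  have hi0 : u i ≠ 0 := by
    intro h
    rw [h, abs_zero] at hi
    apply hu
    funext j
    have := abs_le_sz u j
    rw [← hi] at this
    exact abs_nonpos_iff.1 this
  refine ⟨w i / u i, ?_⟩
  by_contra hne
  set k := w i / u i with hk
  set r : Fin 4 → ℤ := w - fun j => k * u j with hr
  have hr0 : r ≠ 0 := fun h => hne (sub_eq_zero.1 h)
  have hrx : dt r x = 0 := by rw [hr, dt_sub', dt_smul', hw, hux]; ring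
  have h1 := hmin r hr0 hrx
  have hri : |r i| < |u i| := by
    have h2 : r i = w i % u i := by
      have := Int.emod_add_mul_ediv (w i) (u i)
      show w i - k * u i = _
      rw [hk]; linarith
    rw [h2, abs_of_nonneg (Int.emod_nonneg _ hi0)]
    exact Int.emod_lt_abs _ hi0
  have hrj : ∀ j, |r j| ≤ |r i| := by
    intro j
    have h3 : u i * r j = u j * r i := by
      have h4 := hp i j
      unfold mn at h4
      show u i * (w j - k * u j) = u j * (w i - k * u i)
      linear_combination h4
    have h5 : |u i| * |r j| = |u j| * |r i| := by rw [← abs_mul, h3, abs_mul]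
    have h6 : |u j| ≤ |u i| := by rw [hi]; exact abs_le_sz u j
    have h7 : |u i| * |r j| ≤ |u i| * |r i| := by
      rw [h5]; exact mul_le_mul_of_nonneg_right h6 (abs_nonneg _)
    exact le_of_mul_le_mul_left h7 (abs_pos.2 hi0)
  have h8 : (sz r : ℤ) ≤ |r i| := by
    obtain ⟨j, hj⟩ := exists_sz r
    rw [← hj]; exact hrj j
  have h9 : (sz u : ℤ) ≤ sz r := by exact_mod_cast h1
  rw [hi] at hri
  linarith

/-- number of elements of `[-A,A]` vectors in a coset of `ℤ u` -/
theorem card_coset (A : ℕ) (u v1 : Fin 4 → ℤ) (hu : u ≠ 0) (huA : sz u ≤ A)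
    (F : Finset (Fin 4 → ℤ)) (hF : ∀ v ∈ F, (∀ i, |v i| ≤ (A : ℤ)) ∧ ∃ k : ℤ, v - v1 = fun i => k * u i) :
    F.card * sz u ≤ 3 * A := by
  classical
  obtain ⟨i, hi⟩ := exists_sz u
  have hi0 : u i ≠ 0 := by
    intro h
    rw [h, abs_zero] at hi
    apply hu
    funext j
    have := abs_le_sz u j
    rw [← hi] at this
    exact abs_nonpos_iff.1 this
  have hszpos : 0 < sz u := by
    have : (0 : ℤ) < sz u := by rw [← hi]; exact abs_pos.2 hi0
    exact_mod_cast this
  -- the image of F under v ↦ v i is injective and spaced by |u i|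
  have hinj : ∀ v ∈ F, ∀ v' ∈ F, |v i - v' i| < |u i| → v = v' := by
    intro v hv v' hv' h
    obtain ⟨-, k, hk⟩ := hF v hv
    obtain ⟨-, k', hk'⟩ := hF v' hv'
    have h1 : v i - v' i = (k - k') * u i := by
      have e1 := congrFun hk i
      have e2 := congrFun hk' i
      simp only [Pi.sub_apply] at e1 e2
      linear_combination e1 - e2
    rw [h1, abs_mul] at h
    have h2 : |k - k'| < 1 := by
      by_contra h3
      push Not at h3
      have : 1 * |u i| ≤ |k - k'| * |u i| := mul_le_mul_of_nonneg_right h3 (abs_nonneg _)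
      linarith
    have h4 : k = k' := by
      have := Int.abs_lt_one_iff.1 h2
      linarith
    subst h4
    have : v - v1 = v' - v1 := by rw [hk, hk']
    exact sub_left_injective this
  -- boxes
  have hs0 : (0 : ℤ) < sz u := by exact_mod_cast hszpos
  have hmaps : ∀ v ∈ F, (v i + A) / (sz u : ℤ) ∈ Icc (0 : ℤ) ((2 * A : ℤ) / sz u) := by
    intro v hv
    have h1 := abs_le.1 ((hF v hv).1 i)
    rw [Finset.mem_Icc]
    constructor
    · exact Int.ediv_nonneg (by linarith) hs0.le
    · exact Int.ediv_le_ediv hs0 (by linarith)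
  have hinj2 : Set.InjOn (fun v : Fin 4 → ℤ => (v i + A) / (sz u : ℤ)) (F : Set (Fin 4 → ℤ)) := by
    intro v hv v' hv' h
    apply hinj v (Finset.mem_coe.1 hv) v' (Finset.mem_coe.1 hv')
    have h7 := Int.emod_add_mul_ediv (v i + A) (sz u : ℤ)
    have h8 := Int.emod_add_mul_ediv (v' i + A) (sz u : ℤ)
    have h9 := Int.emod_nonneg (v i + A) hs0.ne'
    have h10 := Int.emod_nonneg (v' i + A) hs0.ne'
    have h11 := Int.emod_lt_of_pos (v i + A) hs0
    have h12 := Int.emod_lt_of_pos (v' i + A) hs0
    simp only at h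
    rw [h] at h7
    rw [hi, abs_lt]
    constructor <;> linarith
  have hc := Finset.card_le_card_of_injOn _ hmaps hinj2
  rw [Int.card_Icc] at hc
  have h20 : (F.card : ℤ) ≤ (2 * A : ℤ) / sz u + 1 := by
    have : (0 : ℤ) ≤ (2 * A : ℤ) / sz u := Int.ediv_nonneg (by positivity) hs0.le
    omega
  have h21 : (2 * A : ℤ) / sz u * sz u ≤ 2 * A := Int.ediv_mul_le _ hs0.ne'
  have h22 : (sz u : ℤ) ≤ A := by exact_mod_cast huA
  have h23 : (F.card : ℤ) * sz u ≤ 3 * A := by nlinarith
  exact_mod_cast h23

theorem bad2 (h1 : Bad1Statement) : Bad2Statement := by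
  classical
  refine ⟨120, ?_⟩
  intro A B x hA hAB hAB3 hx hbad
  have hB : 1 ≤ B := hA.trans hAB
  obtain ⟨hxB, -, -⟩ := mem_shell.1 hx
  set S := (cube A).filter fun v => dt v x = 0 with hS
  have hcard : A ^ 3 ≤ 5 * B * S.card := h1 A B x hA hB hxB
  have hmemS : ∀ v, v ∈ S ↔ (∀ i, |v i| ≤ (A : ℤ)) ∧ dt v x = 0 := by
    intro v; rw [hS, Finset.mem_filter, mem_cube]
  -- a nonzero element
  have hne : (S.filter fun v => v ≠ 0).Nonempty := by
    by_contra h
    rw [Finset.not_nonempty_iff_eq_empty, Finset.filter_eq_empty_iff] at h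
    have h2 : S ⊆ {0} := by
      intro v hv
      rw [Finset.mem_singleton]
      by_contra h3
      exact h hv h3
    have h4 := Finset.card_le_card h2
    rw [Finset.card_singleton] at h4
    have h5 : A ^ 3 ≤ 5 * B := by
      calc A ^ 3 ≤ 5 * B * S.card := hcard
        _ ≤ 5 * B * 1 := Nat.mul_le_mul_left _ h4
        _ = 5 * B := by ring
    omega
  obtain ⟨u, huS, humin⟩ := Finset.exists_min_image _ sz hne
  obtain ⟨huS', hu0⟩ := Finset.mem_filter.1 huS
  obtain ⟨huA, hux⟩ := (hmemS u).1 huS'
  have huszA : sz u ≤ A := sz_le.2 huA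
  have hmin : ∀ v : Fin 4 → ℤ, v ≠ 0 → dt v x = 0 → sz u ≤ sz v := by
    intro v hv hvx
    rcases le_total (sz v) A with h | h
    · exact humin v (Finset.mem_filter.2 ⟨(hmemS v).2 ⟨sz_le.1 h, hvx⟩, hv⟩)
    · exact huszA.trans h
  have hszpos : 0 < sz u := by
    rw [Nat.pos_iff_ne_zero]
    intro h
    apply hu0
    funext i
    have := abs_le_sz u i
    rw [h] at this
    exact abs_nonpos_iff.1 (by exact_mod_cast this)
  by_cases hpar : ∀ v ∈ S, ∀ i j, mn u v i j = 0
  · -- everything is parallel to u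
    left
    refine ⟨u, hu0, hux, ?_⟩
    have h5 : S.card * sz u ≤ 3 * A := by
      refine card_coset A u 0 hu0 huszA S ?_
      intro v hv
      refine ⟨((hmemS v).1 hv).1, ?_⟩
      rw [sub_zero]
      exact mult_of_parallel x u v hu0 hux hmin ((hmemS v).1 hv).2 (hpar v hv)
    have h6 : A * (sz u * A ^ 2) ≤ A * (120 * B) := by
      calc A * (sz u * A ^ 2) = A ^ 3 * sz u := by ring
        _ ≤ 5 * B * S.card * sz u := Nat.mul_le_mul_right _ hcard
        _ = 5 * B * (S.card * sz u) := by ring
        _ ≤ 5 * B * (3 * A) := Nat.mul_le_mul_left _ h5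
        _ = A * (15 * B) := by ring
        _ ≤ A * (120 * B) := Nat.mul_le_mul_left _ (by omega)
    exact Nat.le_of_mul_le_mul_left h6 hA
  · push Not at hpar
    obtain ⟨v0, hv0S, i0, j0, hij0⟩ := hpar
    obtain ⟨hv0A, hv0x⟩ := (hmemS v0).1 hv0S
    obtain ⟨i, j, hij⟩ := exists_wd u v0
    have hwd0 : 0 < wd u v0 := (wd_pos_iff u v0).2 ⟨i0, j0, hij0⟩
    have hmnne : mn u v0 i j ≠ 0 := by
      intro h
      rw [h, abs_zero] at hij
      have : (wd u v0 : ℤ) = 0 := hij.symm
      omega
    -- linear dependence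
    have hdep : ∀ v ∈ S, ∃ b c : ℤ, c ≠ 0 ∧ ∀ k l, c * mn u v k l = b * mn u v0 k l := by
      intro v hv
      obtain ⟨hvA, hvx⟩ := (hmemS v).1 hv
      have hnl : ¬ LinearIndependent ℤ ![u, v0, v] := by
        intro hl
        apply hbad
        refine ⟨![u, v0, v], hl, ?_, ?_⟩
        · intro a
          fin_cases a
          · exact hux
          · exact hv0x
          · exact hvx
        · intro a k
          fin_cases a
          · exact huA k
          · exact hv0A k
          · exact hvA k
      rw [Fintype.not_linearIndependent_iff] at hnl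
      obtain ⟨g, hg, k0, hk0⟩ := hnl
      rw [Fin.sum_univ_three] at hg
      have hg' : ∀ m, g 0 * u m + g 1 * v0 m + g 2 * v m = 0 := by
        intro m
        have := congrFun hg m
        simpa using this
      have hmn : ∀ k l, g 1 * mn u v0 k l + g 2 * mn u v k l = 0 := by
        intro k l
        unfold mn
        linear_combination u k * hg' l - u l * hg' k
      have hg2 : g 2 ≠ 0 := by
        intro h2
        have h3 : g 1 = 0 := by
          have := hmn i j
          rw [h2, zero_mul, add_zero] at this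
          rcases mul_eq_zero.1 this with h | h
          · exact h
          · exact absurd h hmnne
        have h4 : g 0 = 0 := by
          by_contra h0
          apply hu0
          funext m
          have := hg' m
          rw [h2, h3, zero_mul, zero_mul, add_zero, add_zero] at this
          rcases mul_eq_zero.1 this with h | h
          · exact absurd h h0
          · exact h
        fin_cases k0
        · exact hk0 h4
        · exact hk0 h3
        · exact hk0 h2
      refine ⟨-g 1, g 2, hg2, ?_⟩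
      intro k l
      linear_combination hmn k l
    have hdiff : ∀ v ∈ S, ∀ v' ∈ S, ∀ k l, |mn u (v - v') k l| ≤ |mn u (v - v') i j| := by
      intro v hv v' hv' k l
      obtain ⟨b, c, hc, h⟩ := hdep v hv
      obtain ⟨b', c', hc', h'⟩ := hdep v' hv'
      have hγ : c * c' ≠ 0 := mul_ne_zero hc hc'
      have h3 : ∀ k l, (c * c') * mn u (v - v') k l = (b * c' - b' * c) * mn u v0 k l := by
        intro k l
        rw [mn_sub']
        linear_combination c' * h k l - c * h' k l
      have h4 : |c * c'| * |mn u (v - v') k l| ≤ |c * c'| * |mn u (v - v') i j| := by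
        rw [← abs_mul, ← abs_mul, h3, h3, abs_mul, abs_mul, hij]
        exact mul_le_mul_of_nonneg_left (abs_mn_le u v0 k l) (abs_nonneg _)
      exact le_of_mul_le_mul_left h4 (abs_pos.2 hγ)
    -- the values
    set f : (Fin 4 → ℤ) → ℤ := fun v => mn u v i j with hf
    set F := S.image f with hF
    have hfib : ∀ b ∈ F, (S.filter fun v => f v = b).card * sz u ≤ 3 * A := by
      intro b hb
      obtain ⟨v1, hv1, hv1b⟩ := Finset.mem_image.1 hb
      refine card_coset A u v1 hu0 huszA _ ?_
      intro v hv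
      obtain ⟨hvS, hvb⟩ := Finset.mem_filter.1 hv
      refine ⟨((hmemS v).1 hvS).1, ?_⟩
      refine mult_of_parallel x u (v - v1) hu0 hux hmin ?_ ?_
      · rw [dt_sub', ((hmemS v).1 hvS).2, ((hmemS v1).1 hv1).2, sub_zero]
      · intro k l
        have h3 := hdiff v hvS v1 hv1 k l
        have h4 : mn u (v - v1) i j = 0 := by
          rw [mn_sub']
          have : f v = f v1 := by rw [hvb, hv1b]
          simp only [hf] at this
          rw [this, sub_self]
        rw [h4, abs_zero] at h3
        exact abs_nonpos_iff.1 h3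
    have hsum : S.card * sz u ≤ F.card * (3 * A) := by
      rw [Finset.card_eq_sum_card_image f S, Finset.sum_mul]
      calc ∑ b ∈ S.image f, (S.filter fun v => f v = b).card * sz u
          ≤ ∑ _b ∈ S.image f, 3 * A := Finset.sum_le_sum hfib
        _ = F.card * (3 * A) := by rw [Finset.sum_const, smul_eq_mul]
    have hkey : sz u * A ^ 2 ≤ 15 * B * F.card := by
      have h6 : A * (sz u * A ^ 2) ≤ A * (15 * B * F.card) := by
        calc A * (sz u * A ^ 2) = A ^ 3 * sz u := by ring
          _ ≤ 5 * B * S.card * sz u := Nat.mul_le_mul_right _ hcard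
          _ = 5 * B * (S.card * sz u) := by ring
          _ ≤ 5 * B * (F.card * (3 * A)) := Nat.mul_le_mul_left _ hsum
          _ = A * (15 * B * F.card) := by ring
      exact Nat.le_of_mul_le_mul_left h6 hA
    rcases Nat.lt_or_ge F.card 2 with hm | hm
    · left
      refine ⟨u, hu0, hux, hkey.trans ?_⟩
      calc 15 * B * F.card ≤ 15 * B * 1 := Nat.mul_le_mul_left _ (by omega)
        _ ≤ 120 * B := by omega
    · right
      have hrange : ∀ a ∈ F, -(2 * (A : ℤ) * sz u) ≤ a ∧ a ≤ -(2 * (A : ℤ) * sz u) +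
          ((4 * A * sz u : ℕ) : ℤ) := by
        intro a ha
        obtain ⟨v, hv, rfl⟩ := Finset.mem_image.1 ha
        have h3 : |mn u v i j| ≤ 2 * (A : ℤ) * sz u := by
          unfold mn
          have e1 := abs_le_sz u i
          have e2 := abs_le_sz u j
          have e3 := ((hmemS v).1 hv).1 i
          have e4 := ((hmemS v).1 hv).1 j
          calc |u i * v j - u j * v i| ≤ |u i * v j| + |u j * v i| := abs_sub _ _
            _ ≤ sz u * A + sz u * A := by
              rw [abs_mul, abs_mul]
              gcongr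
            _ = 2 * (A : ℤ) * sz u := by ring
        have h4 := abs_le.1 h3
        push_cast
        constructor
        · exact h4.1
        · simp only [hf]; linarith [h4.2]
      obtain ⟨a, ha, b, hb, hab, hD⟩ := close_pair F _ _ hrange hm
      obtain ⟨v, hv, rfl⟩ := Finset.mem_image.1 ha
      obtain ⟨v', hv', rfl⟩ := Finset.mem_image.1 hb
      have hfe : mn u (v - v') i j = f v - f v' := mn_sub' u v v' i j
      have hwdle : (wd u (v - v') : ℤ) = |f v - f v'| := by
        obtain ⟨k, l, hkl⟩ := exists_wd u (v - v')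
        apply le_antisymm
        · rw [← hkl, ← hfe]; exact hdiff v hv v' hv' k l
        · rw [← hfe]; exact abs_mn_le _ _ _ _
      refine ⟨u, v - v', hux, ?_, ?_, ?_⟩
      · rw [dt_sub', ((hmemS v).1 hv).2, ((hmemS v').1 hv').2, sub_zero]
      · have : (0 : ℤ) < wd u (v - v') := by
          rw [hwdle]; exact abs_pos.2 (sub_ne_zero.2 hab)
        exact_mod_cast this
      · -- the inequality
        set d : ℕ := wd u (v - v') with hd
        set m : ℕ := F.card with hm'
        have h10 : (d : ℤ) * ((m : ℤ) - 1) ≤ 4 * A * sz u := by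
          rw [hwdle]; exact_mod_cast hD
        have h11 : d * m ≤ 8 * A * sz u := by
          have h12 : (d : ℤ) * m ≤ 8 * A * sz u := by
            have h13 : (2 : ℤ) ≤ m := by exact_mod_cast hm
            have h14 : (0 : ℤ) ≤ d := by positivity
            nlinarith
          exact_mod_cast h12
        have h15 : (A * sz u) * (d * A) ≤ (A * sz u) * (120 * B) := by
          calc (A * sz u) * (d * A) = d * (sz u * A ^ 2) := by ring
            _ ≤ d * (15 * B * m) := Nat.mul_le_mul_left _ hkey
            _ = 15 * B * (d * m) := by ring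
            _ ≤ 15 * B * (8 * A * sz u) := Nat.mul_le_mul_left _ h11
            _ = (A * sz u) * (120 * B) := by ring
        exact Nat.le_of_mul_le_mul_left h15 (Nat.mul_pos hA hszpos)

end Cub.H10
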